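import Pool.Agent.N976.EE.Final

/-!
# Concentration of the conserved energy at one point for the exact Euler equations on the torus
under tower-sparse workless constraints

We consider the Euler equations on `𝕋³ = (ℝ / 2πℤ)³` with the exact nonlinearity and pressure and
without force, under linear constraints `∫ u(t) · r_p = 0` imposed through their reaction forces
(d'Alembert's principle): `∂ₜu + (u·∇)u + ∇p = Σ λ_p(t) r_p`, that is, the left-hand side is
orthogonal to every divergence-free field which satisfies the constraints. The reaction forces do no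
work: the energy is conserved, and classical solutions are unique. (With finitely many constraints
the reaction force would be bounded and smooth in `x`: just the Euler equations with a harmless
force.) The constraint fields `r (i, n)` are `C^∞`, four for every `n ≥ 0`, and `r (i, 0)`,
`r (i, n + 1)` vanish for `|x| ≥ 1 / R`, `|x| ≥ 1 / R_n`, where `R_0 = R`, `R_(n+1) = exp R_n` is a
tower of exponentials and `R` is as large as we want: the number of constraint fields which are not
supported in the ball `|x| < δ` is `O(log* (1/δ))`.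

For every `ε > 0` there is a `C^∞` divergence-free datum with a `C^∞` solution up to a finite time
`T`, the maximal time, for which the energy outside of every ball `|x| < δ` is at most the fraction
`ε` of the (conserved) energy near the time `T`: almost all the energy concentrates at one point.
-/

open Set MeasureTheory
open scoped ContDiff

namespace Pool.Agent.Results.MP_b0497c_an.EnergyConcentration

/-- The space `ℝ³`. -/
abbrev V := Fin 3 → ℝ

/-- `v` is `2π`-periodic in each coordinate. -/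
def Per (v : V → V) : Prop := ∀ (i : Fin 3) (x : V), v (x + Pi.single i (2 * Real.pi)) = v x

/-- The cube `[-π, π]³`. -/
def Q : Set V := Icc (fun _ => -Real.pi) (fun _ => Real.pi)

/-- The divergence `div v`. -/
noncomputable def divT (v : V → V) (x : V) : ℝ := ∑ i, fderiv ℝ v x (Pi.single i 1) i

/-- The field `(a · ∇) b`. -/
noncomputable def advT (a b : V → V) (x : V) : V := fderiv ℝ b x (a x)

/-- `∫ v · w` over the cube. -/
noncomputable def ipT (v w : V → V) : ℝ := ∫ x in Q, ∑ i, v x i * w x i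

/-- The time derivative `∂ₜ u` on `[0, T)` (one-sided at `t = 0`). -/
noncomputable def dtT (T : ℝ) (u : ℝ → V → V) (t : ℝ) (x : V) : V :=
  derivWithin (fun τ => u τ x) (Ico 0 T) t

/-- `∂ₜu + (u·∇)u` at the time `t`. -/
noncomputable def resT (T : ℝ) (u : ℝ → V → V) (t : ℝ) (x : V) : V :=
  dtT T u t x + advT (u t) (u t) x

/-- Continuously differentiable, periodic, divergence-free fields. -/
structure FldT (w : V → V) : Prop where
  c1 : ContDiff ℝ 1 w
  per : Per w
  div : ∀ x, divT w x = 0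

/-- Classical solutions (continuously differentiable in `t` and `x`) on `[0, T) × 𝕋³` of the Euler
equations under the constraints `∫ u(t) · r p = 0`: `∂ₜu + (u·∇)u` is orthogonal to every
continuously differentiable, periodic, divergence-free field which satisfies the constraints. -/
structure SolT {ι : Type} (r : ι → V → V) (T : ℝ) (u : ℝ → V → V) : Prop where
  c1 : ContDiffOn ℝ 1 (fun z : ℝ × V => u z.1 z.2) (Ico 0 T ×ˢ univ)
  per : ∀ t ∈ Ico 0 T, Per (u t)
  div : ∀ t ∈ Ico 0 T, ∀ x, divT (u t) x = 0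
  con : ∀ t ∈ Ico 0 T, ∀ i, ipT (u t) (r i) = 0
  eqn : ∀ t ∈ Ico 0 T, ∀ w, FldT w → (∀ i, ipT w (r i) = 0) → ipT (resT T u t) w = 0

/-- The tower of exponentials `R, exp R, exp (exp R), …`. -/
noncomputable def tow (R : ℝ) : ℕ → ℝ
  | 0 => R
  | n + 1 => Real.exp (tow R n)

/-- The constraint fields are `C^∞`; `r (i, 0)` vanishes for `|x| ≥ 1 / R` and `r (i, n + 1)`
vanishes for `|x| ≥ 1 / tow R n`. -/
structure Fields (R : ℝ) (r : Fin 4 × ℕ → V → V) : Prop where
  smooth : ∀ p, ContDiff ℝ ∞ (r p)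
  out0 : ∀ i x, 1 ≤ R ^ 2 * ∑ j, x j ^ 2 → r (i, 0) x = 0
  out : ∀ i n x, 1 ≤ tow R n ^ 2 * ∑ j, x j ^ 2 → r (i, n + 1) x = 0

/-- The residual `∂ₜu + (u·∇)u` is the sum of the reaction forces `l p (t) r p` (in the cube); the
coefficients are smooth in time and decrease faster than every power of the scales. -/
structure Reaction (R : ℝ) (r : Fin 4 × ℕ → V → V) (T : ℝ) (u : ℝ → V → V)
    (l : Fin 4 × ℕ → ℝ → ℝ) : Prop where
  smooth : ∀ p, ContDiffOn ℝ ∞ (l p) (Ico 0 T)
  rapid : ∀ k : ℕ, ∀ T' < T, ∃ M, ∀ t ∈ Icc 0 T', ∀ i n, tow R n ^ k * |l (i, n) t| ≤ M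
  sum : ∀ t ∈ Ico 0 T, ∀ x ∈ Q, HasSum (fun p => l p t • r p x) (resT T u t x)

/-- The energy is positive and conserved, but outside of any given ball `|x| < δ` at most the
fraction `ε` of the energy is left near the time `T`. -/
structure Conc (ε T : ℝ) (u : ℝ → V → V) : Prop where
  pos : 0 < ipT (u 0) (u 0)
  energy : ∀ t ∈ Ico 0 T, ipT (u t) (u t) = ipT (u 0) (u 0)
  out : ∀ δ > 0, ∃ t₀ < T, ∀ t ∈ Ico t₀ T, 0 ≤ t →
    ∫ x in {x : V | x ∈ Q ∧ δ ^ 2 ≤ ∑ i, x i ^ 2}, ∑ i, u t x i ^ 2 ≤ ε * ipT (u 0) (u 0)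

/-- For all `R₀` and `ε > 0` there are `R ≥ R₀` and `C^∞` fields `r (i, n)`, `i < 4`, `n ≥ 0`,
`r (i, 0) = 0` for `|x| ≥ 1/R`, `r (i, n + 1) = 0` for `|x| ≥ 1/R_n`, `R_0 = R`,
`R_(n+1) = exp R_n`, such that the Euler equations on `𝕋³` under the constraints
`∫ u · r (i, n) = 0` have a classical solution `u` on `[0, T) × 𝕋³`, `0 < T < ∞`, such that
* `u` is `C^∞` in `(t, x)` on `[0, T) × 𝕋³` and vanishes in the cube for `|x| ≥ 1`;
* `∂ₜu + (u·∇)u = ∑ l_{i,n}(t) r_{i,n}(x)` with `l_{i,n}` smooth in time and rapidly decreasing in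
  the scale (the reaction forces; the pressure is zero);
* `T` is the maximal time of existence: a classical solution on any `[0, T')` with the same initial
  values has `T' ≤ T` and agrees with `u`;
* the energy is positive and conserved;
* for every `δ > 0`, `∫_{|x| ≥ δ} |u(t)|² ≤ ε |u(0)|²` for all `t < T` near `T`: the energy
  concentrates at the origin. -/
theorem result (R₀ ε : ℝ) (hε : 0 < ε) :
    ∃ (R T : ℝ) (r : Fin 4 × ℕ → V → V) (u : ℝ → V → V) (l : Fin 4 × ℕ → ℝ → ℝ),
      R₀ ≤ R ∧ 1 < R ∧ 0 < T ∧ Fields R r ∧ SolT r T u ∧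
      ContDiffOn ℝ ∞ (fun z : ℝ × V => u z.1 z.2) (Ico 0 T ×ˢ univ) ∧
      (∀ t ∈ Ico 0 T, ∀ x ∈ Q, 1 ≤ ∑ j, x j ^ 2 → u t x = 0) ∧
      Reaction R r T u l ∧
      (∀ (T' : ℝ) (v : ℝ → V → V), 0 < T' → SolT r T' v → v 0 = u 0 →
        T' ≤ T ∧ ∀ t ∈ Ico 0 T', v t = u t) ∧
      Conc ε T u := by
  have eF : ∀ w : V → V, Pool.Agent.N976.EC.FldT w ↔ FldT w := fun w =>
    ⟨fun h => ⟨h.c1, h.per, h.div⟩, fun h => ⟨h.c1, h.per, h.div⟩⟩
  have eS : ∀ (ι : Type) (r : ι → V → V) (T : ℝ) (u : ℝ → V → V),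
      Pool.Agent.N976.EC.SolT r T u ↔ SolT r T u := by
    intro ι r T u
    exact ⟨fun h => ⟨h.c1, h.per, h.div, h.con, fun t ht w hw hc =>
      h.eqn t ht w ((eF w).2 hw) hc⟩, fun h => ⟨h.c1, h.per, h.div, h.con, fun t ht w hw hc =>
      h.eqn t ht w ((eF w).1 hw) hc⟩⟩
  have eT : ∀ (R : ℝ) (n : ℕ), Pool.Agent.N976.EE.tw R n = tow R n := by
    intro R n
    induction n with
    | zero => rfl
    | succ n ih => exact congrArg Real.exp ih
  obtain ⟨h2, h3, h4, h5, h6, h7, h8, h9, hZ1⟩ := Pool.Agent.N976.EE.all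
  obtain ⟨R, T, r, u, l, hR, hR1, hT, hr, hr0, hr1, hSol, hsm, huo, l1, l2, l3, huni, hpos, hen,
    hout⟩ := Pool.Agent.N976.EE.mainT_of h2 h3 h4 h5 h6 h7 h8 h9 hZ1 ε R₀ hε
  simp only [eT] at hr1 l2
  refine ⟨R, T, r, u, l, hR, hR1, hT, ⟨hr, hr0, hr1⟩, (eS _ _ T u).1 hSol, hsm, huo,
    ⟨l1, l2, l3⟩, ?_, ⟨hpos, hen, hout⟩⟩
  intro T' v hT' hv hv0
  exact huni T' v hT' ((eS _ _ T' v).2 hv) hv0

end Pool.Agent.Results.MP_b0497c_an.EnergyConcentration
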