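import Pool.Agent.N983.GT.Fin

/-!
The three-dimensional Euler equations on the torus, truncated by the Fourier-Galerkin method in two
of the three variables, develop singularities in finite time.
-/

open MeasureTheory Set
open scoped ContDiff

namespace Pool.Agent.Results.MP_b0497c_an.GalerkinBlowup

/-- The space `ℝ³` -/
abbrev Vec := Fin 3 → ℝ

/-- The partial derivative `∂f/∂xⱼ`. -/
noncomputable def dx (j : Fin 3) (f : Vec → ℝ) (x : Vec) : ℝ := fderiv ℝ f x (Pi.single j 1)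

/-- The Fourier coefficient of `g(·, ·, z)` with wave vector `(k, l)` in the first two variables. -/
noncomputable def coeff (k l : ℤ) (g : Vec → ℝ) (z : ℝ) : ℂ :=
  1 / (2 * Real.pi) ^ 2 * ∫ a in (-Real.pi)..Real.pi, ∫ b in (-Real.pi)..Real.pi,
    Complex.exp (-Complex.I * (k * a + l * b)) * g ![a, b, z]

/-- The truncation `P_M g` of the Fourier series of `g` in the first two variables to the wave
vectors `(k, l)` with `|k| ≤ M` and `|l| ≤ M`; all frequencies in the third variable are kept. -/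
noncomputable def trunc (M : ℕ) (g : Vec → ℝ) (x : Vec) : ℂ :=
  ∑ k ∈ Finset.Icc (-(M : ℤ)) M, ∑ l ∈ Finset.Icc (-(M : ℤ)) M,
    coeff k l g (x 2) * Complex.exp (Complex.I * (k * x 0 + l * x 1))

/-- Real trigonometric polynomials in three variables. -/
def TrigPoly (f : Vec → ℝ) : Prop :=
  f ∈ Algebra.adjoin ℝ {g : Vec → ℝ | ∃ j, g = (fun x => Real.cos (x j)) ∨ g = fun x => Real.sin (x j)}

/-- `(u, p)` is a classical (`C¹`) solution on `[0, T)` of the Euler equations on the torus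
`[-π, π]³`, without force, truncated in the first two variables:
`∂ₜ u + P_M ((u·∇) u) + ∇ p = 0`, `div u = 0`, `P_M u = u`, `P_M p = p`. -/
structure Solution (M : ℕ) (T : ℝ) (u : ℝ → Vec → Vec) (p : ℝ → Vec → ℝ) : Prop where
  c1_u : ContDiffOn ℝ 1 (fun s : ℝ × Vec => u s.1 s.2) (Ico 0 T ×ˢ univ)
  c1_p : ContDiffOn ℝ 1 (fun s : ℝ × Vec => p s.1 s.2) (Ico 0 T ×ˢ univ)
  per_u : ∀ t ∈ Ico 0 T, ∀ x j, u t (x + Pi.single j (2 * Real.pi)) = u t x
  per_p : ∀ t ∈ Ico 0 T, ∀ x j, p t (x + Pi.single j (2 * Real.pi)) = p t x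
  trunc_u : ∀ t ∈ Ico 0 T, ∀ x i, trunc M (fun y => u t y i) x = u t x i
  trunc_p : ∀ t ∈ Ico 0 T, ∀ x, trunc M (p t) x = p t x
  divfree : ∀ t ∈ Ico 0 T, ∀ x, ∑ i, dx i (fun y => u t y i) x = 0
  euler : ∀ t ∈ Ioo 0 T, ∀ x i, ((deriv (fun s => u s x i) t : ℝ) : ℂ)
    + trunc M (fun y => ∑ j, u t y j * dx j (fun y => u t y i) y) x + (dx i (p t) x : ℝ) = 0

theorem trunc_eq (M : ℕ) (g : Vec → ℝ) (x : Vec) : trunc M g x = N983.GT.trunc M g x := by
  unfold trunc N983.GT.trunc N983.GT.box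
  rw [Finset.sum_product]
  rfl

theorem toIsSol {M : ℕ} {T : ℝ} {u : ℝ → Vec → Vec} {p : ℝ → Vec → ℝ} (h : Solution M T u p) :
    N983.GT.IsSol M T u p := by
  refine ⟨h.c1_u, h.c1_p, h.per_u, h.per_p, ?_, ?_, h.divfree, ?_⟩
  · intro t ht x i
    rw [← trunc_eq]
    exact h.trunc_u t ht x i
  · intro t ht x
    rw [← trunc_eq]
    exact h.trunc_p t ht x
  · intro t ht x i
    rw [← trunc_eq]
    exact h.euler t ht x i

/-- **Finite-time breakdown for the Euler equations truncated in two variables.** For every `M ≥ 2`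
there is a divergence-free real trigonometric polynomial `v` with `P_M v = v` such that the truncated
Euler equations with datum `v` have no classical solution on any time interval `[0, T)` with
`T > 2`. -/
theorem result : ∀ M : ℕ, 2 ≤ M → ∃ v : Vec → Vec,
    (∀ i, TrigPoly fun x => v x i) ∧
    (∀ x, ∑ i, dx i (fun y => v y i) x = 0) ∧
    (∀ x i, trunc M (fun y => v y i) x = v x i) ∧
    ∀ T, 2 < T → ¬ ∃ (u : ℝ → Vec → Vec) (p : ℝ → Vec → ℝ), Solution M T u p ∧ u 0 = v := by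
  intro M hM
  obtain ⟨v, h1, h2, h3, h4⟩ := N983.GT.main hM
  refine ⟨v, h1, h2, fun x i => ?_, fun T hT => ?_⟩
  · rw [trunc_eq]
    exact h3 x i
  · rintro ⟨u, p, h, h0⟩
    exact h4 T hT ⟨u, p, toIsSol h, h0⟩

end Pool.Agent.Results.MP_b0497c_an.GalerkinBlowup
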