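import Pool.Agent.N977.Q.Main2
import Pool.Agent.N977.Q.Th8

/-!
The exact critical power of the logarithm for perturbations of order zero of the three-dimensional
Euler equations. The perturbations `K` are bilinear, commute with translations, are Galilean
invariant and conserve the energy and the helicity.

`V = Fin 3 → ℝ`. See the claim file for the definitions.
-/

open MeasureTheory Set

namespace Pool.Agent.Results.MP_b0497c_an.LogOrderZero

open H459R3.NS Pool.Agent.N977.Q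
open Pool.Agent.N977.K (SolK)

/-- The critical power of the logarithm is `p = 1`, for every size `δ > 0` of the perturbation.

For `p > 1` there is a perturbation `K` of the class `Low 0 p δ` such that for all `0 < ε ≤ 1` and
`T > 0` and all large `j` the smooth solution `u` of the Euler equations with the perturbation `K`
with the initial datum `ε * dat (2 ^ j)` blows up at a time `T₁ ≤ T`: all its Sobolev norms of
positive order are unbounded on `[0, T₁)`, and every smooth solution with this datum on an interval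
`[0, T₂)` satisfies `T₂ ≤ T₁` and equals `u`. The convection term of `u` vanishes.

For `0 ≤ p ≤ 1` and all perturbations `K` of the class `Low 0 p δ` all Sobolev norms of a smooth
solution on `[0, T)` whose convection term is a gradient are bounded on `[0, T)`. -/
theorem result (p δ : ℝ) (hp : 0 ≤ p) (hδ : 0 < δ) :
    (1 < p → ∃ K : (V → V) → (V → V) → V → V, Low 0 p δ K ∧
      ∀ ε T : ℝ, 0 < ε → ε ≤ 1 → 0 < T → ∃ j₀ : ℕ, ∀ j : ℕ, j₀ ≤ j →
      ∃ T₁ : ℝ, 0 < T₁ ∧ T₁ ≤ T ∧ ∃ u : ℝ → V → V, SolK 0 T₁ K u (fun _ _ => 0) ∧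
        (∀ x, u 0 x = ε • dat (2 ^ j) x) ∧
        (∀ t ∈ Ico 0 T₁, ∀ x i, ∑ j, u t x j * pd j (fun y => u t y i) x = 0) ∧
        (∀ s : ℝ, 0 < s → ∀ C : ℝ, ∃ t ∈ Ico 0 T₁, C < Hn s 0 (u t)) ∧
        ∀ (T₂ : ℝ) (v : ℝ → V → V) (q : ℝ → V → ℝ), SolK 0 T₂ K v q →
          (∀ x, v 0 x = ε • dat (2 ^ j) x) →
          T₂ ≤ T₁ ∧ ∀ t ∈ Ico 0 T₂, ∀ x, v t x = u t x) ∧
    (p ≤ 1 → ∀ K : (V → V) → (V → V) → V → V, Low 0 p δ K →
      ∀ (T : ℝ) (u : ℝ → V → V) (q : ℝ → V → ℝ), SolK 0 T K u q →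
        (∀ t ∈ Ioo 0 T, ∃ P : V → ℝ, SP P ∧
          ∀ i x, ∑ j, u t x j * pd j (fun y => u t y i) x = pd i P x) →
        ∀ s : ℝ, ∃ B : ℝ, ∀ t ∈ Ico 0 T, Hn s 0 (u t) ≤ B) := by
  refine ⟨fun hp1 => ?_, fun hp1 K hK T u q hs hg s =>
    reg_zero hK hp hp1 hδ.le le_rfl hs hg s⟩
  obtain ⟨K, hK, h⟩ := main2 (b := 0) (by norm_num) hp1 hδ
  refine ⟨K, by exact_mod_cast hK, fun ε T hε hε1 hT => ?_⟩
  exact h 0 (Or.inr ⟨rfl, rfl⟩) ε T hε hε1 hT

end Pool.Agent.Results.MP_b0497c_an.LogOrderZero
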