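import Pool.Agent.N264.EC.M7
import Pool.Agent.N264.EC.C2

/-!
# The exact Euler equations on `𝕋³` under tower-sparse workless linear constraints blow up

An explicit ancient smooth solution of the Euler equations on `𝕋³` under two linear constraints
`∫ u · r = 0` in each of a sequence of balls whose radii decrease like `ρ (n+2) ≤ exp (-1/ρ n)`: it
leaves a steady state at `t = -∞` and its vorticity becomes unbounded at `t = 0`.
-/

open Set MeasureTheory
open scoped ContDiff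

namespace Pool.Agent.Results.MP_b0497c_an.TowerSparseConstraints

/-- The space `ℝ³`; `‖x‖` is the maximum norm. -/
abbrev V := Fin 3 → ℝ

/-- `f` is `2π`-periodic in each of the three coordinates, i.e. it is a function on
`𝕋³ = [-π, π]³` with opposite faces identified. -/
def Periodic3 (f : V → V) : Prop :=
  ∀ (i : Fin 3) (x : V), f (x + Pi.single i (2 * Real.pi)) = f x

/-- The torus `𝕋³ = [-π, π]³`. -/
def torus : Set V := Icc (fun _ => -Real.pi) (fun _ => Real.pi)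

/-- The partial derivative `∂ⱼ vᵢ (x)`. -/
noncomputable def D (v : V → V) (x : V) (j i : Fin 3) : ℝ := fderiv ℝ v x (Pi.single j 1) i

/-- `∫ v · w` over `𝕋³`. -/
noncomputable def inner (v w : V → V) : ℝ := ∫ x in torus, ∑ i, v x i * w x i

/-- `u` is a classical solution, for the times in the interval `I`, of the incompressible Euler
equations on `𝕋³` under the linear constraints `∫ u(t) · r p = 0` (for all `p`): `u` is continuously
differentiable in `(t, x)`, periodic and divergence-free, satisfies the constraints, and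
`∂ₜ u + (u · ∇) u` is orthogonal to all continuously differentiable periodic divergence-free fields
`w` which satisfy the constraints. -/
structure IsSolution (r : ℕ × Fin 2 → V → V) (I : Set ℝ) (u : ℝ → V → V) : Prop where
  contDiffOn : ContDiffOn ℝ 1 (fun z : ℝ × V => u z.1 z.2) (I ×ˢ univ)
  periodic : ∀ t ∈ I, Periodic3 (u t)
  div_free : ∀ t ∈ I, ∀ x, ∑ i, D (u t) x i i = 0
  constraint : ∀ t ∈ I, ∀ p, inner (u t) (r p) = 0
  euler : ∀ t ∈ I, ∀ w : V → V, ContDiff ℝ 1 w → Periodic3 w → (∀ x, ∑ i, D w x i i = 0) →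
    (∀ p, inner w (r p) = 0) →
    inner (fun x i => derivWithin (fun s => u s x i) I t + ∑ j, u t x j * D (u t) x j i) w = 0

open Pool.Agent.N264.EC in
lemma adv_eq (v w : V → V) (x : V) (i : Fin 3) : adv v w x i = ∑ j, v x j * D w x j i := by
  unfold adv D
  have e : v x = ∑ j, v x j • (Pi.single j (1 : ℝ) : V) := by
    ext k
    simp [Finset.sum_apply, Pi.single_apply]
  conv_lhs => rw [e, map_sum]
  simp [Finset.sum_apply]

open Pool.Agent.N264.EC in
lemma dt_eq {I : Set ℝ} {u : ℝ → V → V}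
    (h : ContDiffOn ℝ 1 (fun z : ℝ × V => u z.1 z.2) (I ×ˢ univ)) {t : ℝ} (ht : t ∈ I) (x : V)
    (hI : UniqueDiffWithinAt ℝ I t) (i : Fin 3) :
    derivWithin (fun s => u s x) I t i = derivWithin (fun s => u s x i) I t := by
  have h2 : ContDiffOn ℝ 1 (fun s => u s x) I :=
    h.comp (contDiff_id.prodMk contDiff_const).contDiffOn (fun s hs => ⟨hs, mem_univ _⟩)
  have h3 := (h2.differentiableOn one_ne_zero t ht).hasDerivWithinAt
  exact ((hasDerivWithinAt_pi.1 h3 i).derivWithin hI).symm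

open Pool.Agent.N264.EC in
lemma sol_iff (r : ℕ × Fin 2 → V → V) {I : Set ℝ} (hI : UniqueDiffOn ℝ I) (u : ℝ → V → V) :
    IsSolution r I u ↔ SolI r I u := by
  constructor
  · intro h
    refine ⟨h.contDiffOn, h.periodic, h.div_free, h.constraint, fun t ht w h1 h2 h3 h4 => ?_⟩
    have h5 := h.euler t ht w h1 h2 h3 h4
    refine Eq.trans ?_ h5
    unfold ipT inner
    congr 1
    ext1 x
    refine Finset.sum_congr rfl fun i _ => ?_
    simp only [Pi.add_apply]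
    rw [dt_eq h.contDiffOn ht x (hI t ht), adv_eq]
  · intro h
    refine ⟨h.c1, h.per, h.div, h.con, fun t ht w h1 h2 h3 h4 => ?_⟩
    have h5 := h.eqn t ht w h1 h2 h3 h4
    refine Eq.trans ?_ h5
    unfold ipT inner
    congr 1
    ext1 x
    refine Finset.sum_congr rfl fun i _ => ?_
    simp only [Pi.add_apply]
    rw [dt_eq h.c1 ht x (hI t ht), adv_eq]

/-- There are radii `ρ n ↓ 0` with `ρ (n+2) ≤ exp(-1/ρ n)`, for each `n` two `C^∞` vector fields
`r (n, 0)`, `r (n, 1)` with support in `|x| ≤ ρ n ≤ 1/2`, and fields `a` and `u` such that, for the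
Euler equations on `𝕋³` under the constraints `∫ u · r p = 0`, `p ∈ ℕ × {0, 1}`:

* every classical solution conserves the energy;
* `a ≠ 0` is a `C^∞` steady solution;
* `u` is a classical solution for all `t < 0`; it is `C^∞` in `(t, x)` for `t < 0` and also at all
  points `(t, x)` with `x ∉ 2πℤ³`; its equation holds pointwise, with zero pressure and with the
  constraint force `∑ c p (t) r p (x)`, all `c p` being `C^∞`; it has the energy of `a`;
* as `t → -∞`, `u(t)` converges to `a` in `C^k` for every `k`;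
* `|∇u(t, x)| ≤ C_ε |x|^{-ε}` for all `t < 0` and every `ε > 0`;
* the maximum of the (third component of the) vorticity tends to infinity as `t → 0`;
* for all `t₀ < 0`, each classical solution on `[t₀, T)` with the value `u(t₀)` at `t₀` is equal to
  `u`, and `T ≤ 0`. -/
theorem result : ∃ (ρ : ℕ → ℝ) (r : ℕ × Fin 2 → V → V) (a : V → V) (u : ℝ → V → V),
    (ρ 0 = 1 / 2 ∧ ∀ n, 0 < ρ n ∧ ρ (n + 1) ≤ ρ n ∧ ρ (n + 2) ≤ Real.exp (-(1 / ρ n))) ∧
    (∀ n i, ContDiff ℝ ∞ (r (n, i)) ∧ ∀ x, ρ n ≤ ‖x‖ → r (n, i) x = 0) ∧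
    (∀ (t₀ T : ℝ) (v : ℝ → V → V), IsSolution r (Ico t₀ T) v →
      ∀ t ∈ Ico t₀ T, inner (v t) (v t) = inner (v t₀) (v t₀)) ∧
    (ContDiff ℝ ∞ a ∧ a ≠ 0 ∧ IsSolution r univ (fun _ => a)) ∧
    IsSolution r (Iio 0) u ∧
    ContDiffOn ℝ ∞ (fun z : ℝ × V => u z.1 z.2)
      {z | z.1 < 0 ∨ ∀ k : Fin 3 → ℤ, z.2 ≠ fun i => 2 * Real.pi * (k i : ℝ)} ∧
    (∃ c : ℕ × Fin 2 → ℝ → ℝ, (∀ p, ContDiff ℝ ∞ (c p)) ∧ ∀ t < 0, ∀ x ∈ torus, ∀ i,
      HasSum (fun p => c p t * r p x i)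
        (deriv (fun s => u s x i) t + ∑ j, u t x j * D (u t) x j i)) ∧
    (∀ t < 0, inner (u t) (u t) = inner a a) ∧
    (∀ (k : ℕ) (ε : ℝ), 0 < ε → ∃ t₁ < (0 : ℝ), ∀ t ≤ t₁, ∀ x,
      ‖iteratedFDeriv ℝ k (fun y => u t y - a y) x‖ ≤ ε) ∧
    (∀ ε : ℝ, 0 < ε → ∃ C, ∀ t < 0, ∀ x ∈ torus, x ≠ 0 → ∀ i j,
      |D (u t) x j i| ≤ C * ‖x‖ ^ (-ε)) ∧
    (∀ M : ℝ, ∃ t₁ < (0 : ℝ), ∀ t ∈ Ioo t₁ 0, ∃ x, M < |D (u t) x 0 1 - D (u t) x 1 0|) ∧
    (∀ t₀ < 0, ∀ (T : ℝ) (v : ℝ → V → V), IsSolution r (Ico t₀ T) v → v t₀ = u t₀ →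
      T ≤ 0 ∧ ∀ t ∈ Ico t₀ T, v t = u t) := by
  obtain ⟨ρ, r, a, u, h1, h2, ⟨h3, h3', h3''⟩, h4, h5, ⟨c, hc, h6⟩, h7, h8, h9, h10, h11⟩ :=
    Pool.Agent.N264.EC.M.main Pool.Agent.N264.EC.C2.t_SER
  have hIco : ∀ t₀ T : ℝ, UniqueDiffOn ℝ (Ico t₀ T) := fun t₀ T => uniqueDiffOn_Ico t₀ T
  refine ⟨ρ, r, a, u, h1, fun n i => h2 (n, i), fun t₀ T v hv => ?_,
    ⟨h3, h3', (sol_iff r uniqueDiffOn_univ _).2 h3''⟩,
    (sol_iff r (uniqueDiffOn_Iio 0) _).2 h4, h5, ⟨c, hc, fun t ht x hx i => ?_⟩, h8, h7,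
    fun ε hε => ?_, h10, fun t₀ ht₀ T v hv h0 => h11 t₀ ht₀ T v ((sol_iff r (hIco _ _) v).1 hv) h0⟩
  · exact Pool.Agent.N264.EC.M.energyI ((sol_iff r (hIco _ _) v).1 hv)
  · have h12 := Pi.hasSum.1 (h6 t ht x hx) i
    rw [Pi.add_apply, adv_eq] at h12
    have h13 := dt_eq h4.c1 ht x (uniqueDiffOn_Iio 0 t ht) i
    rw [derivWithin_of_isOpen isOpen_Iio ht, derivWithin_of_isOpen isOpen_Iio ht] at h13
    rw [h13] at h12
    exact h12
  · obtain ⟨C, hC⟩ := h9 ε hε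
    refine ⟨C, fun t ht x hx hx0 i j => le_trans ?_ (hC t ht x hx hx0)⟩
    unfold D
    refine (norm_le_pi_norm (fderiv ℝ (u t) x (Pi.single j 1)) i).trans ?_
    refine (ContinuousLinearMap.le_opNorm _ _).trans ?_
    rw [Pi.norm_single, norm_one, mul_one]

end Pool.Agent.Results.MP_b0497c_an.TowerSparseConstraints
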